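import Mathlib

namespace Pool.Agent.Results.MP_9fecad_an.Alpha3

open Finset Set

/-- The polynomial `G_{α,β}(ξ)`. -/
noncomputable def G (α : ℕ) (β : ℝ) (ξ : ℂ) : ℂ :=
  ∑ n ∈ range (α + 2), ((α + 1).choose n : ℂ) * (-ξ) ^ n / (n + β)

noncomputable def P {K : Type} [Field K] (β z : K) : K :=
  z ^ 4 - 4 * (4 + β) / (3 + β) * z ^ 3 + 6 * (4 + β) / (2 + β) * z ^ 2 -
    4 * (4 + β) / (1 + β) * z + (4 + β) / β

lemma GP {β : ℝ} (h : β ∈ Ioo (-1 : ℝ) 0) {z : ℂ} (e : G 3 β z = 0) : P (β : ℂ) z = 0 := by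
  have : (4 + β : ℂ) ≠ 0 := by norm_cast; linarith [h.1]
  simp only [G, sum_range_succ, range_zero, sum_empty, Nat.choose] at e
  push_cast at e
  have e4 : z ^ 4 = (4 + β) * (z ^ 4 / (4 + β)) := by field_simp
  rw [P, e4]
  linear_combination (4 + β) * e

lemma PR (β x : ℝ) : P (β : ℂ) x = (P β x : ℝ) := by simp [P]

lemma D2 {β a b c : ℂ} (ab : a ≠ b) (ac : a ≠ c) (bc : b ≠ c) (ha : P β a = 0) (hb : P β b = 0)
    (hc : P β c = 0) : a ^ 2 + b ^ 2 + c ^ 2 + a * b + a * c + b * c -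
      4 * (4 + β) / (3 + β) * (a + b + c) + 6 * (4 + β) / (2 + β) = 0 := by
  refine mul_left_cancel₀ (mul_ne_zero (mul_ne_zero (sub_ne_zero.2 ab) (sub_ne_zero.2 ac))
    (sub_ne_zero.2 bc)) ?_
  unfold P at *
  linear_combination (b - c) * ha - (a - c) * hb + (a - b) * hc

lemma V {β : ℂ} {X : Fin 4 → ℂ} (hi : X.Injective) (h : ∀ k, P β (X k) = 0) (z : ℂ) :
    P β z = (z - X 0) * (z - X 1) * (z - X 2) * (z - X 3) := by
  have n : ∀ i j, i ≠ j → X i ≠ X j := fun i j e => hi.ne e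
  have a := D2 (n 0 1 (by decide)) (n 0 2 (by decide)) (n 1 2 (by decide)) (h 0) (h 1) (h 2)
  have b := D2 (n 0 1 (by decide)) (n 0 3 (by decide)) (n 1 3 (by decide)) (h 0) (h 1) (h 3)
  have h0 := h 0
  have h1 := h 1
  refine mul_left_cancel₀ (mul_ne_zero (sub_ne_zero.2 (n 0 1 (by decide)))
    (sub_ne_zero.2 (n 2 3 (by decide)))) ?_
  unfold P at *
  linear_combination (X 2 - X 3) * (z - X 1) * h0 - (X 2 - X 3) * (z - X 0) * h1 +
    (X 0 - X 1) * (z - X 0) * (z - X 1) * ((z - X 3) * a - (z - X 2) * b)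

lemma big {b : ℝ} (h1 : -1 < b) (h2 : b ≤ -2 / 7) : ∃ t > 3733 / 1000, P b t = 0 := by
  have p1 : 0 < 1 + b := by linarith
  have p0 : 0 < -b := by linarith
  have ha : P b (3733 / 1000) < 0 := by
    have B := fun i j => mul_nonneg (pow_nonneg p1.le i) (pow_nonneg (sub_nonneg.2 h2) j)
    have : ∀ a, P b a * ((-b) * (1 + b) * (2 + b) * (3 + b)) = -(a ^ 4 * b * (1 + b) * (2 + b) *
        (3 + b) + (4 + b) * (-4 * a ^ 3 * b * (1 + b) * (2 + b) + 6 * a ^ 2 * b * (1 + b) * (3 + b)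
          - 4 * a * b * (2 + b) * (3 + b) + (1 + b) * (2 + b) * (3 + b))) := fun a => by
      have : b ≠ 0 := by linarith
      have : 2 + b ≠ 0 := by linarith
      have : 3 + b ≠ 0 := by linarith
      rw [P]
      field_simp
      ring
    refine neg_of_mul_neg_left (b := (-b) * (1 + b) * (2 + b) * (3 + b)) ?_
      (mul_pos (mul_pos (mul_pos p0 p1) (by linarith)) (by linarith)).le
    rw [this]
    linarith [B 0 4, B 1 3, B 2 2, B 3 1, B 4 0]
  obtain ⟨u, hu⟩ : ∃ u, u = 4 * (4 + b) / (3 + b) := ⟨_, rfl⟩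
  obtain ⟨v, hv⟩ : ∃ v, v = 4 * (4 + b) / (1 + b) := ⟨_, rfl⟩
  obtain ⟨w, hw⟩ : ∃ w, w = -((4 + b) / b) := ⟨_, rfl⟩
  have u0 : 0 < u := hu ▸ div_pos (by linarith) (by linarith)
  have v0 : 0 < v := hv ▸ div_pos (by linarith) p1
  have w0 : 0 < w := hw ▸ neg_pos.2 (div_neg_of_pos_of_neg (by linarith) (by linarith))
  have c0 : 0 < 6 * (4 + b) / (2 + b) := div_pos (by linarith) (by linarith)
  obtain ⟨t, ht, e⟩ := intermediate_value_Ioo (a := 3733 / 1000) (b := u + v + w + 4) (f := P b)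
    (by linarith) (by unfold P; fun_prop) (show 0 ∈ _ from ⟨ha, by
      rw [P, ← hu, ← hv, ← neg_neg ((4 + b) / b), ← hw]
      set K := u + v + w + 4
      have k1 : 1 ≤ K := by linarith
      have k2 : K ≤ K ^ 3 := le_self_pow₀ k1 (by norm_num)
      have : K ^ 4 = (u + v + w + 4) * K ^ 3 := by ring
      nlinarith [mul_pos c0 (pow_pos (one_pos.trans_le k1) 2)]⟩)
  exact ⟨t, ht.1, e⟩

lemma small {b y : ℝ} (h0 : b < 0) (h2 : -2 / 7 ≤ b) (hy : 53 / 400 ≤ -b * y) : 0 < P b (-y) := by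
  obtain ⟨u, rfl⟩ : ∃ u, b = -u := ⟨-b, by ring⟩
  have u0 : 0 < u := by linarith
  have u1 : 0 ≤ 2 / 7 - u := by linarith
  rw [neg_neg, mul_comm, ← div_le_iff₀ u0] at hy
  have p1 : 0 < 1 - u := by linarith
  have p2 : 0 < 2 - u := by linarith
  have p3 : 0 < 3 - u := by linarith
  have p4 : 0 < 4 - u := by linarith
  have e : ∀ y, P (-u) (-y) = y ^ 4 + 4 * (4 - u) / (3 - u) * y ^ 3 + 6 * (4 - u) / (2 - u) * y ^ 2 +
    4 * (4 - u) / (1 - u) * y - (4 - u) / u := fun y => by rw [P, div_neg]; ring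
  refine lt_of_lt_of_le (b := P (-u) (-(53 / 400 / u))) ?_ (by rw [e, e]; gcongr)
  have : ∀ w, P (-u) (-(w / u)) = (w ^ 4 * (1 - u) * (2 - u) * (3 - u) + (4 - u) * u *
      (4 * w ^ 3 * (1 - u) * (2 - u) + 6 * w ^ 2 * u * (1 - u) * (3 - u) + 4 * w * u ^ 2 * (2 - u) *
        (3 - u) - u ^ 2 * (1 - u) * (2 - u) * (3 - u))) / (u ^ 4 * (1 - u) * (2 - u) * (3 - u)) :=
    fun w => by rw [e]; field_simp; ring
  rw [this]
  refine div_pos ?_ (by positivity)
  rcases le_total u (1 / 4) with h | h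
  · have B := fun i j => mul_nonneg (pow_nonneg u0.le i) (pow_nonneg (sub_nonneg.2 h) j)
    linarith [B 0 7, B 1 6, B 2 5, B 3 4, B 4 3, B 5 2, B 6 1, B 7 0]
  · have B := fun i j => mul_nonneg (pow_nonneg u1 i) (pow_nonneg (sub_nonneg.2 h) j)
    linarith [B 0 7, B 1 6, B 2 5, B 3 4, B 4 3, B 5 2, B 6 1, B 7 0]

theorem result (X : Fin 4 → ℝ → ℂ) (hG : ∀ k, ∀ β ∈ Ioo (-1 : ℝ) 0, G 3 β (X k β) = 0)
    (hi : ∀ β ∈ Ioo (-1 : ℝ) 0, Function.Injective fun k => X k β)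
    (h0 : ∀ β ∈ Ioo (-1 : ℝ) 0, (X 0 β).im = 0 ∧ (X 0 β).re < 0) :
    ¬ ∃ b ∈ Ioo (-1 : ℝ) 0, ∀ k ≠ 0, IsMinOn (fun β => ‖X k β‖) (Ioo (-1) 0) b := by
  rintro ⟨b, hb, hm⟩
  have hP := fun k β h => GP h (hG k β h)
  have hy : ∀ β ∈ Ioo (-1 : ℝ) 0, ∃ y > 0, X 0 β = (-y : ℝ) ∧ P β (-y) = 0 := fun β h => by
    have e : X 0 β = (- -(X 0 β).re : ℝ) := Complex.ext (by simp) (by simp [(h0 β h).1])
    refine ⟨_, neg_pos.2 (h0 β h).2, e, ?_⟩
    rw [← Complex.ofReal_eq_zero, ← PR, ← e, hP 0 β h]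
  have hV := fun β h => V (hi β h) fun k => hP k β h
  rcases le_total b (-2 / 7) with h | h
  · have m : (-4 / 15 : ℝ) ∈ Ioo (-1 : ℝ) 0 := by norm_num
    obtain ⟨x, hx, ex⟩ := intermediate_value_Icc (a := 373 / 100) (b := 3733 / 1000)
      (f := P (-4 / 15 : ℝ)) (by norm_num) (by unfold P; fun_prop) (show 0 ∈ _ by norm_num [P])
    obtain ⟨y, y0, ey, py⟩ := hy _ m
    have y1 : y < 1 := by
      by_contra hh
      norm_num [P] at py
      nlinarith [pow_pos y0 3, pow_pos y0 2, pow_pos y0 4]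
    have hk : ∀ k ≠ 0, ‖X k b‖ ≤ 3733 / 1000 := fun k hk => by
      refine (hm k hk m).trans ?_
      by_cases e : (x : ℂ) = X k (-4 / 15)
      · simp only [← e, Complex.norm_real, Real.norm_of_nonneg (show 0 ≤ x by linarith [hx.1]), hx.2]
      have := D2 (a := x) (b := (-y : ℝ)) (by norm_cast; linarith [hx.1]) e (ey ▸ (hi _ m).ne hk.symm)
        (by rw [PR, ex]; simp) (by rw [PR, py]; simp) (hP k _ m)
      change ‖X k (-4 / 15)‖ ≤ _
      generalize X k (-4 / 15) = z at this ⊢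
      have h1 := congrArg Complex.re this
      have h2 := congrArg Complex.im this
      norm_num [sq] at h1 h2
      refine abs_le_of_sq_le_sq' ?_ (by norm_num) |>.2
      rw [Complex.sq_norm, Complex.normSq_apply]
      have := hx.1
      have := hx.2
      by_cases hq : z.im = 0
      · have k1 : 6 ≤ x * x + y * y - x * y - 224 / 41 * (x - y) + 168 / 13 := by nlinarith
        have k2 : (x - y - 224 / 41) ^ 2 ≤ 9 := by nlinarith
        rw [hq] at h1
        nlinarith [sq_nonneg (2 * z.re + x - y - 224 / 41)]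
      · have : 2 * z.re + x - y - 224 / 41 = 0 := mul_left_cancel₀ hq (by linarith)
        nlinarith
    obtain ⟨t, ht, et⟩ := big hb.1 h
    have := hV b hb t
    rw [PR, et] at this
    have n : ∀ k ≠ 0, (t : ℂ) - X k b ≠ 0 := fun k h e => by
      have := hk k h
      rw [← sub_eq_zero.1 e, Complex.norm_real, Real.norm_of_nonneg (by linarith)] at this
      linarith
    refine mul_ne_zero (mul_ne_zero (mul_ne_zero (fun e => ?_) (n 1 (by decide))) (n 2 (by decide)))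
      (n 3 (by decide)) this.symm
    have := (h0 b hb).2
    rw [← sub_eq_zero.1 e, Complex.ofReal_re] at this
    linarith
  · have m : (-5 / 16 : ℝ) ∈ Ioo (-1 : ℝ) 0 := by norm_num
    have pr : ∀ β ∈ Ioo (-1 : ℝ) 0, ∀ y > 0, X 0 β = (-y : ℝ) →
        -β * y * (‖X 1 β‖ * ‖X 2 β‖ * ‖X 3 β‖) = 4 + β := fun β h y y0 e => by
      have := congrArg norm (hV β h (0 : ℝ))
      simp only [PR, P, e, norm_mul, Complex.ofReal_zero, zero_sub, norm_neg, Complex.norm_real,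
        Real.norm_of_nonneg y0.le] at this
      norm_num at this
      rw [abs_of_neg h.2, div_eq_iff (by linarith [h.2]), show (4 + β : ℂ) = (4 + β : ℝ) by simp,
        Complex.norm_real, Real.norm_of_nonneg (by linarith [h.1])] at this
      linarith
    obtain ⟨y, y0, ey, py⟩ := hy _ m
    obtain ⟨w, w0, ew, pw⟩ := hy _ hb
    have y1 : 421 / 1000 ≤ y := by
      by_contra hh
      have hh := (not_le.1 hh).le
      norm_num [P] at py
      linarith [pow_le_pow_left₀ y0.le hh 2, pow_le_pow_left₀ y0.le hh 3,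
        pow_le_pow_left₀ y0.le hh 4, show (-y) ^ 3 = -y ^ 3 by ring]
    have a1 := pr _ m y y0 ey
    have a2 := pr _ hb w w0 ew
    have : ‖X 1 b‖ * ‖X 2 b‖ * ‖X 3 b‖ ≤ ‖X 1 (-5 / 16)‖ * ‖X 2 (-5 / 16)‖ * ‖X 3 (-5 / 16)‖ := by
      gcongr
      exacts [hm 1 (by decide) m, hm 2 (by decide) m, hm 3 (by decide) m]
    have a3 : ‖X 1 b‖ * ‖X 2 b‖ * ‖X 3 b‖ ≤ 2803 / 100 := by nlinarith
    refine (small hb.2 h (y := w) ?_).ne' pw
    nlinarith [mul_pos (neg_pos.2 hb.2) w0]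

end Pool.Agent.Results.MP_9fecad_an.Alpha3
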